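import Mathlib
import Pool.Agent.KS6_93.HAL.Khin
import Pool.Agent.KS6_93.HAL.Box

/-!
# MP_4e48d5_nt: a Khintchine-type lower bound for all Halton-Kronecker sequences

For pairwise coprime bases `b_1, …, b_s ≥ 2`, a nondecreasing positive `h` with `∑ 1 / (k h(k)) = ∞` and
almost every `α`, the `(s + 1)`-dimensional Halton-Kronecker sequence has
`N D_N ≥ (log N) ^ (s + 1) h(log N)` for infinitely many `N`.
-/

set_option autoImplicit false

open MeasureTheory Filter Topology Finset

namespace Pool.Agent.Results.MP_4e48d5_nt.HaltonKronecker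

/-- The radical inverse in base `b`: `∑_j a_j b ^ (-j-1)`, where `a_j = ⌊n / b ^ j⌋ mod b` are the digits of
`n` in base `b` (they vanish for `j ≥ n`). For `b = 2` this is the van der Corput sequence `x_n`. -/
noncomputable def radInv (b n : ℕ) : ℝ := ∑ j ∈ range n, ((n / b ^ j % b : ℕ) : ℝ) / b ^ (j + 1)

variable {s : ℕ}

/-- The number of `n < N` whose point `(φ_{b_1}(n), …, φ_{b_s}(n), {n α})` of the Halton-Kronecker
sequence lies in the box `∏ [l_j, u_j) × [x, y)`. -/
noncomputable def cnt (b : Fin s → ℕ) (α : ℝ) (N : ℕ) (l u : Fin s → ℝ) (x y : ℝ) : ℕ :=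
  Nat.card {n : ℕ | n < N ∧ (∀ j, l j ≤ radInv (b j) n ∧ radInv (b j) n < u j) ∧
    (x ≤ Int.fract (n * α) ∧ Int.fract (n * α) < y)}

/-- The discrepancy `D_N` of the first `N` terms of the `(s + 1)`-dimensional Halton-Kronecker sequence:
the supremum of `|#{n < N : z_n ∈ B} / N - λ(B)|` over all boxes
`B = ∏ [l_j, u_j) × [x, y) ⊆ [0, 1) ^ (s + 1)`. -/
noncomputable def D (b : Fin s → ℕ) (α : ℝ) (N : ℕ) : ℝ :=
  sSup {t | ∃ (l u : Fin s → ℝ) (x y : ℝ), (∀ j, 0 ≤ l j ∧ l j ≤ u j ∧ u j ≤ 1) ∧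
    (0 ≤ x ∧ x ≤ y ∧ y ≤ 1) ∧
    t = |(cnt b α N l u x y : ℝ) / N - (∏ j, (u j - l j)) * (y - x)|}

lemma cnt_le (b : Fin s → ℕ) (α : ℝ) (N : ℕ) (l u : Fin s → ℝ) (x y : ℝ) :
    cnt b α N l u x y ≤ N := by
  unfold cnt
  have h1 : Nat.card {n : ℕ | n < N ∧ (∀ j, l j ≤ radInv (b j) n ∧ radInv (b j) n < u j) ∧
      (x ≤ Int.fract (n * α) ∧ Int.fract (n * α) < y)} ≤ Nat.card (Set.Iio N) :=
    Nat.card_mono (Set.finite_Iio N) fun n hn => hn.1
  have h2 : Nat.card (Set.Iio N) = N := by simp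
  rwa [h2] at h1

lemma le_D (b : Fin s → ℕ) (α : ℝ) (N : ℕ) {l u : Fin s → ℝ} {x y : ℝ}
    (h1 : ∀ j, 0 ≤ l j ∧ l j ≤ u j ∧ u j ≤ 1) (h2 : 0 ≤ x ∧ x ≤ y ∧ y ≤ 1) :
    |(cnt b α N l u x y : ℝ) / N - (∏ j, (u j - l j)) * (y - x)| ≤ D b α N := by
  apply le_csSup
  · refine ⟨1, ?_⟩
    rintro t ⟨l, u, x, y, h1, h2, rfl⟩
    have h3 : (cnt b α N l u x y : ℝ) / N ≤ 1 := by
      apply div_le_one_of_le₀ _ (Nat.cast_nonneg _)
      exact_mod_cast cnt_le b α N l u x y
    have h4 : 0 ≤ (cnt b α N l u x y : ℝ) / N := by positivity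
    have h5 : 0 ≤ ∏ j, (u j - l j) := prod_nonneg fun j _ => by
      have := h1 j
      linarith
    have h6 : ∏ j, (u j - l j) ≤ 1 := by
      apply prod_le_one
      · intro j _
        have := h1 j
        linarith
      · intro j _
        have := h1 j
        linarith
    have h7 : 0 ≤ (∏ j, (u j - l j)) * (y - x) := mul_nonneg h5 (by linarith)
    have h8 : (∏ j, (u j - l j)) * (y - x) ≤ 1 * 1 :=
      mul_le_mul h6 (by linarith) (by linarith) (by norm_num)
    rw [abs_le]
    constructor <;> linarith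
  · exact ⟨l, u, x, y, h1, h2, rfl⟩

open Pool.Agent.KS6_93.HAL in
/-- good approximations from the mixed Khintchine theorem -/
lemma good_approx {b : Fin s → ℕ} {g : ℕ → ℕ} {α : ℝ}
    (h : ((α : ℝ) : UnitAddCircle) ∈ addWellApproximable UnitAddCircle (dl b g)) (Q : ℕ) :
    ∃ (p : (Fin s → ℕ) × ℕ) (i : ℕ) (A : ℤ), p ∈ Sh b i ∧ Q ≤ MM b p.1 * p.2 ∧
      |α - (A : ℝ) / ((MM b p.1 * p.2 : ℕ) : ℝ)| <
        1 / (16 * 4 ^ i * g i) / ((MM b p.1 * p.2 : ℕ) : ℝ) := by
  rw [UnitAddCircle.mem_addWellApproximable_iff] at h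
  obtain ⟨q, hq, hQ⟩ := h.exists_gt Q
  obtain ⟨m, hm, hgcd, hlt⟩ := hq
  have hq0 : 0 < q := by omega
  have hpos : 0 < dl b g q := lt_of_le_of_lt (norm_nonneg _) hlt
  unfold dl at hpos hlt
  split_ifs at hpos hlt with hc
  · obtain ⟨⟨i, hi⟩, h2⟩ := hc.choose_spec
    set p := hc.choose with hp
    rw [log_Sh hi] at hlt
    rw [← AddCircle.coe_sub, UnitAddCircle.norm_eq] at hlt
    have h3 : MM b p.1 * p.2 = q := h2
    refine ⟨p, i, m + q * round (α - (m : ℝ) / q), hi, by rw [h3]; omega, ?_⟩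
    rw [h3]
    have hqR : (0 : ℝ) < q := by exact_mod_cast hq0
    have e : α - ((m + q * round (α - (m : ℝ) / q) : ℤ) : ℝ) / q =
        α - (m : ℝ) / q - round (α - (m : ℝ) / q) := by
      push_cast
      field_simp
      ring
    rw [e]
    exact hlt
  · exact absurd hpos (lt_irrefl _)

open Pool.Agent.KS6_93.HAL in
/-- the general lower bound -/
lemma general (b : Fin s → ℕ) (hb : ∀ j, 2 ≤ b j)
    (hc : Pairwise fun i j => Nat.Coprime (b i) (b j)) (h : ℝ → ℝ) (hmono : Monotone h)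
    (hpos : ∀ x, 0 < h x) (hdiv : ¬ Summable fun n : ℕ => 1 / ((n : ℝ) * h n)) :
    ∀ᵐ α : ℝ, ∃ᶠ N : ℕ in atTop, (Real.log N) ^ (s + 1) * h (Real.log N) / N ≤ D b α N := by
  set C : ℕ := BB b + s + 6 with hC
  set w : ℕ → ℕ := fun i => ⌈2 * (C : ℝ) ^ (s + 1) * h (C * i)⌉₊ with hw
  have hw1 : ∀ i, 1 ≤ w i := fun i => by
    simp only [hw]
    apply Nat.one_le_ceil_iff.2
    have := hpos (C * i)
    have hCp : (0 : ℝ) < C := by exact_mod_cast (by omega : 0 < C)
    positivity
  set g : ℕ → ℕ := fun i => if w i ≤ 2 ^ i then i ^ (s + 1) * w i else 0 with hg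
  have hCp : (0 : ℝ) < C := by exact_mod_cast (by omega : 0 < C)
  -- the series
  have hdiv1 : ¬ Summable fun n : ℕ => 1 / ((n : ℝ) * w n) := by
    intro hs
    apply blocks hmono hpos hdiv C (by omega)
    set K : ℝ := 2 * (C : ℝ) ^ (s + 1) + 1 / h 0 with hK
    have hK0 : 0 < K := by
      have := hpos 0
      positivity
    refine Summable.of_nonneg_of_le (fun n => ?_) (fun n => ?_) (hs.mul_left K)
    · have := hpos (C * n)
      positivity
    · have h0 := hpos 0
      have hn := hpos (C * n)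
      rcases Nat.eq_zero_or_pos n with rfl | hn0
      · simp
      have hnR : (0 : ℝ) < n := by exact_mod_cast hn0
      have h1 : (w n : ℝ) ≤ K * h (C * n) := by
        have h2 : (w n : ℝ) < 2 * (C : ℝ) ^ (s + 1) * h (C * n) + 1 :=
          Nat.ceil_lt_add_one (by positivity)
        have h3 : h 0 ≤ h (C * n) := hmono (by positivity)
        have h4 : 1 ≤ 1 / h 0 * h (C * n) := by
          rw [one_div, inv_mul_eq_div, le_div_iff₀ h0, one_mul]
          exact h3
        rw [hK, add_mul]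
        linarith
      have hwR : (1 : ℝ) ≤ w n := by exact_mod_cast hw1 n
      rw [mul_one_div, div_le_div_iff₀ (by positivity) (by positivity), one_mul]
      calc (n : ℝ) * w n ≤ n * (K * h (C * n)) := by gcongr
        _ = _ := by ring
  have hdiv' : Tendsto (fun m => ∑ i ∈ range m, (i : ℝ) ^ s / g i) atTop atTop := by
    rw [← not_summable_iff_tendsto_nat_atTop_of_nonneg (fun i => by positivity)]
    intro hs
    apply hdiv1
    have h2 : Summable fun n : ℕ => (1 / 2 : ℝ) ^ n :=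
      summable_geometric_of_lt_one (by norm_num) (by norm_num)
    refine Summable.of_nonneg_of_le (fun n => by positivity) (fun n => ?_) (hs.add h2)
    rcases Nat.eq_zero_or_pos n with rfl | hn
    · have h3 : (0 : ℝ) ≤ ((0 : ℕ) : ℝ) ^ s / g 0 := by positivity
      simp only [Nat.cast_zero, zero_mul, div_zero, pow_zero]
      simp only [Nat.cast_zero] at h3
      linarith
    have hnR : (0 : ℝ) < n := by exact_mod_cast hn
    have hwR : (1 : ℝ) ≤ w n := by exact_mod_cast hw1 n
    by_cases hcc : w n ≤ 2 ^ n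
    · have h3 : (n : ℝ) ^ s / g n = 1 / ((n : ℝ) * w n) := by
        simp only [hg, if_pos hcc]
        push_cast
        rw [pow_succ]
        field_simp
      rw [h3]
      have : (0 : ℝ) ≤ (1 / 2) ^ n := by positivity
      linarith
    · have h3 : (0 : ℝ) ≤ (n : ℝ) ^ s / g n := by positivity
      have h4 : (1 : ℝ) / ((n : ℝ) * w n) ≤ (1 / 2) ^ n := by
        have h5 : (2 : ℝ) ^ n ≤ w n := by exact_mod_cast (not_le.mp hcc).le
        have h6 : (1 : ℝ) ≤ n := by exact_mod_cast hn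
        rw [div_pow, one_pow]
        apply one_div_le_one_div_of_le (by positivity)
        nlinarith
      linarith
  have hT := khin g hb hc hdiv'
  have hR : ∀ᵐ α : ℝ, ((α : ℝ) : UnitAddCircle) ∈ addWellApproximable UnitAddCircle (dl b g) := by
    have hcube : ∀ n : ℤ, ∀ᵐ α ∂((volume : Measure ℝ).restrict (Set.Ioc (n : ℝ) (n + 1))),
        ((α : ℝ) : UnitAddCircle) ∈ addWellApproximable UnitAddCircle (dl b g) := fun n =>
      (UnitAddCircle.measurePreserving_mk (n : ℝ)).quasiMeasurePreserving.ae hT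
    rw [← Measure.restrict_univ (μ := (volume : Measure ℝ)), ← iUnion_Ioc_intCast ℝ,
      ae_restrict_iUnion_iff]
    exact hcube
  filter_upwards [hR] with α hα
  rw [frequently_atTop]
  intro N0
  obtain ⟨⟨e, k⟩, i, A, hSh, hQ, hA⟩ := good_approx hα (max N0 (4 ^ 1 * BB b ^ 1))
  obtain ⟨he, hik, hki, hkQ⟩ := mem_Sh hSh
  simp only at he hik hki hkQ hQ hA
  have hgi : 1 ≤ g i := by
    by_contra hcc
    have h0 : g i = 0 := by omega
    rw [h0] at hA
    simp only [Nat.cast_zero, mul_zero, div_zero, zero_div] at hA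
    exact absurd hA (not_lt.mpr (abs_nonneg _))
  have hwi : w i ≤ 2 ^ i := by
    by_contra hcc
    simp only [hg, if_neg hcc] at hgi
    omega
  have hgeq : g i = i ^ (s + 1) * w i := by simp only [hg, if_pos hwi]
  have hi : 1 ≤ i := by
    by_contra h0
    have h1 : i = 0 := by omega
    rw [hgeq, h1] at hgi
    simp at hgi
  have hk : 0 < k := lt_of_lt_of_le (by positivity) hik
  set M := MM b e with hM
  have hM0 : 0 < M := MM_pos hb e
  set N : ℕ := M * k * g i with hN
  have hNge : N0 ≤ N := ((le_max_left _ _).trans hQ).trans (Nat.le_mul_of_pos_right _ (by omega))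
  have hkR : (1 : ℝ) ≤ k := by exact_mod_cast hk
  have hMR : (1 : ℝ) ≤ M := by exact_mod_cast hM0
  have hiR : (1 : ℝ) ≤ i := by exact_mod_cast hi
  have hgR : (1 : ℝ) ≤ g i := by exact_mod_cast hgi
  have hNR : (N : ℝ) = M * k * g i := by
    rw [hN]
    push_cast
    rfl
  have hNpos : (1 : ℝ) ≤ N := by
    have h0 : 0 < N := Nat.mul_pos (Nat.mul_pos hM0 hk) (by omega)
    exact_mod_cast h0
  refine ⟨N, hNge, ?_⟩
  have hbR : ∀ j, (1 : ℝ) ≤ (b j : ℝ) ^ e j := fun j =>
    one_le_pow₀ (by exact_mod_cast (by have := hb j; omega : 1 ≤ b j))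
  have hbox := le_D b α N (l := fun _ => 0) (u := fun j => 1 / (b j : ℝ) ^ e j)
    (x := 1 / (4 * k)) (y := 3 / (4 * k))
    (fun j => ⟨le_refl _, by have := hbR j; positivity, by
      have := hbR j
      rw [div_le_one (by linarith)]
      exact this⟩)
    ⟨by positivity, by gcongr; norm_num, by rw [div_le_one (by positivity)]; linarith⟩
  have hcount : cnt b α N (fun _ => 0) (fun j => 1 / (b j : ℝ) ^ e j)
      (1 / (4 * k)) (3 / (4 * k)) = 0 := by
    unfold cnt
    have h1 : {n : ℕ | n < N ∧ (∀ j, (fun _ : Fin s => (0 : ℝ)) j ≤ radInv (b j) n ∧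
        radInv (b j) n < (fun j => 1 / (b j : ℝ) ^ e j) j) ∧
        ((1 : ℝ) / (4 * k) ≤ Int.fract (n * α) ∧ Int.fract (n * α) < 3 / (4 * k))} = ∅ := by
      rw [Set.eq_empty_iff_forall_notMem]
      rintro n ⟨hn, h1, h2, h3⟩
      have h4 : M ∣ n := MM_dvd hb hc fun j => (h1 j).2
      exact empty_box g hM0 hk hki hgi hA hn h4 h2 h3
    rw [h1]
    simp
  have hprod : ∏ j, ((fun j => 1 / (b j : ℝ) ^ e j) j - (fun _ : Fin s => (0 : ℝ)) j) =
      1 / (M : ℝ) := by
    simp only [sub_zero]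
    rw [prod_div_distrib, prod_const_one, hM]
    unfold MM
    push_cast
    rfl
  have hval : |((cnt b α N (fun _ => 0) (fun j => 1 / (b j : ℝ) ^ e j)
      (1 / (4 * k)) (3 / (4 * k)) : ℕ) : ℝ) / N -
      (∏ j, ((fun j => 1 / (b j : ℝ) ^ e j) j - (fun _ : Fin s => (0 : ℝ)) j)) *
        (3 / (4 * k) - 1 / (4 * k))| = g i / (2 * N) := by
    rw [hcount, hprod]
    simp only [Nat.cast_zero, zero_div, zero_sub, abs_neg]
    rw [abs_of_nonneg (by
      apply mul_nonneg (by positivity)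
      rw [← sub_div]
      exact div_nonneg (by norm_num) (by positivity))]
    rw [hNR]
    field_simp
    norm_num
  rw [hval] at hbox
  refine le_trans ?_ hbox
  -- the logarithm
  have hlog : Real.log N ≤ C * i := by
    have hMi : M ≤ BB b ^ i := by
      rw [hM]
      unfold MM BB
      rw [← prod_pow]
      apply prod_le_prod' 
      intro j _
      exact Nat.pow_le_pow_right (by have := hb j; omega) (he j).2
    have hBp : 0 < BB b := BB_pos hb
    have hBR : (1 : ℝ) ≤ BB b := by exact_mod_cast hBp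
    have h1 : (N : ℝ) ≤ (BB b : ℝ) ^ i * 4 ^ (i + 1) * ((i : ℝ) ^ (s + 1) * 2 ^ i) := by
      rw [hNR, hgeq]
      push_cast
      have h2 : (M : ℝ) ≤ (BB b : ℝ) ^ i := by exact_mod_cast hMi
      have h3 : (k : ℝ) ≤ 4 ^ (i + 1) := by exact_mod_cast hki.le
      have h4 : (w i : ℝ) ≤ 2 ^ i := by exact_mod_cast hwi
      gcongr
    have h2 := Real.log_le_log (by linarith) h1
    have hi0 : (0 : ℝ) < i := by linarith
    rw [Real.log_mul (by positivity) (by positivity), Real.log_mul (by positivity) (by positivity),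
      Real.log_mul (by positivity) (by positivity), Real.log_pow, Real.log_pow, Real.log_pow,
      Real.log_pow] at h2
    push_cast at h2
    have h3 : Real.log (BB b) ≤ BB b := (Real.log_le_sub_one_of_pos (by linarith)).trans (by linarith)
    have h4 : Real.log 4 ≤ 3 / 2 := by
      have h7 : Real.log 4 = 2 * Real.log 2 := by
        rw [show (4 : ℝ) = 2 ^ 2 by norm_num, Real.log_pow]
        norm_num
      have := Real.log_two_lt_d9
      rw [h7]
      linarith
    have h5 : Real.log i ≤ i := (Real.log_le_sub_one_of_pos hi0).trans (by linarith)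
    have h6 : Real.log 2 ≤ 1 := by
      have := Real.log_two_lt_d9
      linarith
    have e1 : (i : ℝ) * Real.log (BB b) ≤ i * BB b := by gcongr
    have e2 : ((i : ℝ) + 1) * Real.log 4 ≤ (i + 1) * (3 / 2) := by gcongr
    have e3 : ((s : ℝ) + 1) * Real.log i ≤ (s + 1) * i := by gcongr
    have e4 : (i : ℝ) * Real.log 2 ≤ i * 1 := by gcongr
    have e5 : (C : ℝ) = BB b + s + 6 := by rw [hC]; push_cast; rfl
    rw [e5]
    nlinarith
  have hlog0 : 0 ≤ Real.log N := Real.log_nonneg hNpos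
  have h1 : (Real.log N) ^ (s + 1) ≤ (C * i) ^ (s + 1) := pow_le_pow_left₀ hlog0 hlog _
  have h2 : h (Real.log N) ≤ h (C * i) := hmono hlog
  have h3 : 2 * (C : ℝ) ^ (s + 1) * h (C * i) ≤ w i := Nat.le_ceil _
  have h4 : (g i : ℝ) = i ^ (s + 1) * w i := by rw [hgeq]; push_cast; rfl
  have h5 := hpos (Real.log N)
  have h6 : (Real.log N) ^ (s + 1) * h (Real.log N) ≤ g i / 2 := by
    calc (Real.log N) ^ (s + 1) * h (Real.log N) ≤ (C * i) ^ (s + 1) * h (C * i) :=
          mul_le_mul h1 h2 h5.le (by positivity)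
      _ = i ^ (s + 1) * (2 * (C : ℝ) ^ (s + 1) * h (C * i)) / 2 := by
          rw [mul_pow]
          ring
      _ ≤ i ^ (s + 1) * w i / 2 := by gcongr
      _ = _ := by rw [h4]
  have hN0 : (0 : ℝ) < N := by linarith
  calc (Real.log N) ^ (s + 1) * h (Real.log N) / N ≤ (g i / 2) / N := by gcongr
    _ = _ := by field_simp

/-- the rate `K (1 + log (1 + x))` -/
noncomputable def lrate (K : ℕ) (x : ℝ) : ℝ := (K + 1) * (1 + Real.log (1 + max x 0))

lemma lrate_mono (K : ℕ) : Monotone (lrate K) := by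
  intro x y hxy
  unfold lrate
  have h1 : max x 0 ≤ max y 0 := max_le_max_right _ hxy
  have h2 : 0 ≤ max x 0 := le_max_right _ _
  have h3 : Real.log (1 + max x 0) ≤ Real.log (1 + max y 0) :=
    Real.log_le_log (by linarith) (by linarith)
  gcongr

lemma lrate_pos (K : ℕ) (x : ℝ) : 0 < lrate K x := by
  unfold lrate
  have h2 : 0 ≤ max x 0 := le_max_right _ _
  have h3 : 0 ≤ Real.log (1 + max x 0) := Real.log_nonneg (by linarith)
  positivity

lemma lrate_div (K : ℕ) : ¬ Summable fun n : ℕ => 1 / ((n : ℝ) * lrate K n) := by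
  rw [← summable_condensed_iff_of_nonneg (fun n => by have := lrate_pos K n; positivity)]
  · intro h
    have h2 : ¬ Summable fun n : ℕ => 1 / (n : ℝ) := Real.not_summable_one_div_natCast
    apply h2
    rw [← summable_nat_add_iff 2]
    refine Summable.of_nonneg_of_le (fun n => by positivity) (fun n => ?_) (h.mul_left (K + 1 : ℝ))
    have hp : (0 : ℝ) < 2 ^ n := by positivity
    have h3 : (2 : ℝ) ^ n * (1 / (((2 ^ n : ℕ) : ℝ) * lrate K ((2 ^ n : ℕ) : ℝ))) =
        1 / lrate K ((2 ^ n : ℕ) : ℝ) := by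
      have := lrate_pos K ((2 ^ n : ℕ) : ℝ)
      push_cast
      push_cast at this
      field_simp
    rw [h3]
    have h4 : lrate K ((2 ^ n : ℕ) : ℝ) ≤ (K + 1) * ((n + 2 : ℕ) : ℝ) := by
      unfold lrate
      rw [max_eq_left (Nat.cast_nonneg _)]
      have h5 : Real.log (1 + ((2 ^ n : ℕ) : ℝ)) ≤ n + 1 := by
        have h6 : 1 + ((2 ^ n : ℕ) : ℝ) ≤ 2 ^ (n + 1) := by
          push_cast
          have : (1 : ℝ) ≤ 2 ^ n := one_le_pow₀ (by norm_num)
          rw [pow_succ]
          linarith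
        have h7 := Real.log_le_log (by positivity) h6
        rw [Real.log_pow] at h7
        push_cast at h7
        have h8 := Real.log_two_lt_d9
        have h9 : ((n : ℝ) + 1) * Real.log 2 ≤ (n + 1) * 1 := by
          apply mul_le_mul_of_nonneg_left (by linarith) (by positivity)
        push_cast
        linarith
      have h6 : (1 : ℝ) + Real.log (1 + ((2 ^ n : ℕ) : ℝ)) ≤ ((n + 2 : ℕ) : ℝ) := by
        push_cast
        push_cast at h5
        linarith
      exact mul_le_mul_of_nonneg_left h6 (by positivity)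
    have h5 := lrate_pos K ((2 ^ n : ℕ) : ℝ)
    rw [mul_one_div, div_le_div_iff₀ (by positivity) h5, one_mul]
    exact h4
  · intro m n hm hmn
    have hmR : (0 : ℝ) < m := by exact_mod_cast hm
    have h1 : (m : ℝ) ≤ n := by exact_mod_cast hmn
    have h2 := lrate_pos K m
    have h3 := lrate_mono K h1
    apply one_div_le_one_div_of_le (by positivity)
    exact mul_le_mul h1 h3 h2.le (by positivity)

/-- **A lower bound of Khintchine type for the discrepancy of all Halton-Kronecker sequences.** Let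
`b_1, …, b_s ≥ 2` be pairwise coprime and let `D_N(α)` be the discrepancy of the first `N` terms of the
`(s + 1)`-dimensional sequence `(φ_{b_1}(n), …, φ_{b_s}(n), {n α})`.
(1) Let `h` be a nondecreasing positive function with `∑ 1 / (k h(k)) = ∞`. Then for almost every `α`
there are infinitely many `N` with `D_N(α) ≥ (log N) ^ (s + 1) h(log N) / N`.
(2) For almost every `α` and every `K` there are infinitely many `N` with
`D_N(α) ≥ K (log N) ^ (s + 1) log log N / N`. -/
theorem result :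
    (∀ (s : ℕ) (b : Fin s → ℕ), (∀ j, 2 ≤ b j) → (Pairwise fun i j => Nat.Coprime (b i) (b j)) →
      ∀ h : ℝ → ℝ, Monotone h → (∀ x, 0 < h x) →
        ¬ Summable (fun k : ℕ => 1 / ((k : ℝ) * h k)) →
        ∀ᵐ α : ℝ, ∃ᶠ N : ℕ in atTop,
          (Real.log N) ^ (s + 1) * h (Real.log N) / N ≤ D b α N) ∧
    (∀ (s : ℕ) (b : Fin s → ℕ), (∀ j, 2 ≤ b j) → (Pairwise fun i j => Nat.Coprime (b i) (b j)) →
      ∀ᵐ α : ℝ, ∀ K : ℝ, ∃ᶠ N : ℕ in atTop,
        K * (Real.log N) ^ (s + 1) * Real.log (Real.log N) / N ≤ D b α N) := by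
  refine ⟨fun s b hb hc h h1 h2 h3 => general b hb hc h h1 h2 h3, fun s b hb hc => ?_⟩
  have key : ∀ K : ℕ, ∀ᵐ α : ℝ, ∃ᶠ N : ℕ in atTop,
      (Real.log N) ^ (s + 1) * lrate K (Real.log N) / N ≤ D b α N := fun K =>
    general b hb hc (lrate K) (lrate_mono K) (lrate_pos K) (lrate_div K)
  rw [← ae_all_iff] at key
  filter_upwards [key] with α hα K
  obtain ⟨K', hK'⟩ := exists_nat_ge |K|
  have hev : ∀ᶠ N : ℕ in atTop, (1 : ℝ) ≤ Real.log N :=
    (Real.tendsto_log_atTop.comp tendsto_natCast_atTop_atTop).eventually_ge_atTop 1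
  refine ((hα K').and_eventually hev).mono ?_
  rintro N ⟨h1, h2⟩
  refine le_trans ?_ h1
  have hN0 : (0 : ℝ) ≤ N := Nat.cast_nonneg _
  apply div_le_div_of_nonneg_right _ hN0
  set x := Real.log N with hx
  have hx0 : (0 : ℝ) < x := by linarith
  have h3 : 0 ≤ Real.log x := Real.log_nonneg h2
  have h4 : Real.log x ≤ 1 + Real.log (1 + max x 0) := by
    rw [max_eq_left hx0.le]
    have := Real.log_le_log hx0 (by linarith : x ≤ 1 + x)
    linarith
  have h5 : K * Real.log x ≤ lrate K' x := by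
    unfold lrate
    have h6 : K ≤ (K' : ℝ) + 1 := by
      have := le_abs_self K
      linarith
    calc K * Real.log x ≤ (K' + 1) * Real.log x := mul_le_mul_of_nonneg_right h6 h3
      _ ≤ _ := mul_le_mul_of_nonneg_left h4 (by positivity)
  calc K * x ^ (s + 1) * Real.log x = x ^ (s + 1) * (K * Real.log x) := by ring
    _ ≤ x ^ (s + 1) * lrate K' x := mul_le_mul_of_nonneg_left h5 (by positivity)

end Pool.Agent.Results.MP_4e48d5_nt.HaltonKronecker
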